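import Pool.Agent.W2helper84.TN.Prf
import Pool.Agent.W2helper84.TN.Tor
import Pool.Agent.W2helper53.TN.Sim
import Pool.Agent.W2helper15.TN.COM
import Pool.Agent.W2helper28.TN.ADS
import Pool.Agent.W2helper12.TN.Lie

/-!
# MP_9adac4_al, Q2: a thin decomposition without a graded subalgebra isomorphic to `W` or `H`

Let `K` be an algebraically closed field of characteristic two and `L` the Lie algebra of the
alternating (symmetric with zero diagonal) `6 × 6` matrices over `K`, with the bracket
`[A, B] = A B - B A`. It is simple of dimension `15 = 2 ^ 4 - 1`, and the matrices `E_ij + E_ji` are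
the root vectors of a thin decomposition, for the torus of the derivations given by the diagonal
matrices with trace zero. A simple graded subalgebra consists of the alternating matrices which
vanish outside `A × A`, for a set `A` of at least three indices; its dimension `3`, `6`, `10` or `15`
is not `7`. No graded subalgebra of dimension seven is perfect.
-/

set_option autoImplicit false

namespace Pool.Agent.Results.MP_9adac4_al.AlternatingMatrices

open Pool.Agent.Results.MP_9adac4_al.SimpleLine Pool.Agent.W2helper84.TN TensorProduct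

attribute [local instance 100] LieRing.ofAssociativeRing

/-- A simple Lie algebra is spanned by its brackets. -/
theorem span_brackets {R L : Type*} [CommRing R] [LieRing L] [LieAlgebra R L]
    (h : LieAlgebra.IsSimple R L) :
    Submodule.span R {z : L | ∃ x y : L, ⁅x, y⁆ = z} = ⊤ := by
  have h1 : ⁅(⊤ : LieIdeal R L), (⊤ : LieIdeal R L)⁆ = ⊤ := by
    rcases h.eq_bot_or_eq_top ⁅(⊤ : LieIdeal R L), (⊤ : LieIdeal R L)⁆ with h2 | h2
    · exfalso
      rw [← LieSubmodule.lie_abelian_iff_lie_self_eq_bot] at h2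
      exact h.non_abelian ((lie_abelian_iff_equiv_lie_abelian (LieIdeal.topEquiv (R := R))).1 h2)
    · exact h2
  have h3 := LieSubmodule.lieIdeal_oper_eq_linear_span' (N := (⊤ : LieIdeal R L))
    (I := (⊤ : LieIdeal R L))
  rw [h1] at h3
  rw [← LieSubmodule.top_toSubmodule (R := R) (L := L) (M := L), h3]
  congr 1
  ext z
  simp

theorem thinD (K : Type*) [Field K] [IsAlgClosed K] [CharP K 2] : StmTOR K :=
  tor K (Pool.Agent.W2helper15.TN.com K)
    (Pool.Agent.W2helper28.TN.ads K Pool.Agent.W2helper12.TN.ker') Pool.Agent.W2helper12.TN.lie'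
    Pool.Agent.W2helper12.TN.ker'

/-- `M` is a graded subalgebra: it is spanned by some of the root vectors `e_α`. -/
def IsGraded {K L : Type*} [Field K] [LieRing L] [LieAlgebra K L] {n : ℕ}
    (D : ThinDecomposition K L n) (M : LieSubalgebra K L) : Prop :=
  ∃ S : Set {α : Fin n → ZMod 2 // α ≠ 0}, M.toSubmodule = Submodule.span K (D.e '' S)

/-- `M` is isomorphic to `K ⊗ W₀` for a simple seven-dimensional Lie algebra `W₀` over `𝔽_2` (there
are exactly two of them, `W` and `H`). -/
def IsWorH (K M : Type*) [Field K] [Algebra (ZMod 2) K] [LieRing M] [LieAlgebra K M] : Prop :=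
  ∃ (W₀ : Type) (_ : LieRing W₀) (_ : LieAlgebra (ZMod 2) W₀), LieAlgebra.IsSimple (ZMod 2) W₀ ∧
    Module.finrank (ZMod 2) W₀ = 7 ∧ Nonempty (M ≃ₗ⁅K⁆ (K ⊗[ZMod 2] W₀))

theorem main (K : Type*) [Field K] [IsAlgClosed K] [CharP K 2] [Algebra (ZMod 2) K] :
    LieAlgebra.IsSimple K (Alt K) ∧ Module.finrank K (Alt K) = 15 ∧
    ∃ D : ThinDecomposition K (Alt K) 4, ∀ M : LieSubalgebra K (Alt K), IsGraded D M →
      ¬ IsWorH K M ∧
      (LieAlgebra.IsSimple K M → Module.finrank K M ∈ ({3, 6, 10, 15} : Set ℕ)) := by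
  refine ⟨Pool.Agent.W2helper53.TN.sim K, ?_, thin K (thinD K) inferInstance, ?_⟩
  · rw [Module.finrank_eq_card_basis (bas K)]
    rfl
  rintro M ⟨S, hM⟩
  have hS : (thin K (thinD K) inferInstance).e '' S = E K '' (wt ⁻¹' S) := by
    ext z
    constructor
    · rintro ⟨α, hα, rfl⟩
      obtain ⟨p, rfl⟩ := wt_bij.2 α
      exact ⟨p, hα, (basW_wt K p).symm⟩
    · rintro ⟨p, hp, rfl⟩
      exact ⟨wt p, hp, basW_wt K p⟩
  rw [hS] at hM
  constructor
  · rintro ⟨W₀, _, _, hW, h7, ⟨e⟩⟩
    have hfin : Module.finrank K M = 7 := by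
      rw [LinearEquiv.finrank_eq e.toLinearEquiv, Module.finrank_baseChange, h7]
    obtain ⟨p, hp, hbr⟩ := prf K _ M hM hfin
    let l : K ⊗[ZMod 2] W₀ →ₗ[K] K :=
      (Pool.Agent.W2helper53.TN.coef K p).comp (M.toSubmodule.subtype.comp e.symm.toLinearMap)
    have h1 : ∀ u v : W₀, l (1 ⊗ₜ[ZMod 2] ⁅u, v⁆) = 0 := by
      intro u v
      have h2 : (1 : K) ⊗ₜ[ZMod 2] ⁅u, v⁆ = ⁅(1 : K) ⊗ₜ[ZMod 2] u, (1 : K) ⊗ₜ[ZMod 2] v⁆ := by
        rw [LieAlgebra.ExtendScalars.bracket_tmul, one_mul]
      have h3 : e.symm ((1 : K) ⊗ₜ[ZMod 2] ⁅u, v⁆) =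
          ⁅e.symm ((1 : K) ⊗ₜ[ZMod 2] u), e.symm ((1 : K) ⊗ₜ[ZMod 2] v)⁆ := by
        rw [h2, LieEquiv.map_lie]
      change Pool.Agent.W2helper53.TN.coef K p (e.symm ((1 : K) ⊗ₜ[ZMod 2] ⁅u, v⁆) : Alt K) = 0
      rw [h3]
      exact hbr _ (e.symm _).2 _ (e.symm _).2
    have h4 : ∀ w : W₀, l (1 ⊗ₜ[ZMod 2] w) = 0 := by
      intro w
      have hw : w ∈ Submodule.span (ZMod 2) {z : W₀ | ∃ x y : W₀, ⁅x, y⁆ = z} := by
        rw [span_brackets hW]; exact Submodule.mem_top
      induction hw using Submodule.span_induction with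
      | mem z hz =>
        obtain ⟨x, y, rfl⟩ := hz
        exact h1 x y
      | zero => simp
      | add x y _ _ hx hy => rw [TensorProduct.tmul_add, map_add, hx, hy, add_zero]
      | smul a x _ hx =>
        rw [TensorProduct.tmul_smul, ← algebraMap_smul K a, map_smul, hx, smul_zero]
    have h5 : l = 0 := by
      apply LinearMap.ext
      intro z
      induction z using TensorProduct.induction_on with
      | zero => simp
      | tmul a w =>
        have : a ⊗ₜ[ZMod 2] w = a • ((1 : K) ⊗ₜ[ZMod 2] w) := by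
          rw [TensorProduct.smul_tmul', smul_eq_mul, mul_one]
        rw [this, map_smul, h4, smul_zero]; rfl
      | add x y hx hy => rw [map_add, hx, hy]; simp
    have hE : E K p ∈ M := Pool.Agent.W2helper53.TN.E_mem K _ M hM hp
    have h6 : l (e ⟨E K p, hE⟩) = 1 := by
      change Pool.Agent.W2helper53.TN.coef K p (e.symm (e ⟨E K p, hE⟩) : Alt K) = 1
      rw [LieEquiv.symm_apply_apply, Pool.Agent.W2helper53.TN.coef_E, if_pos rfl]
    rw [h5] at h6
    exact zero_ne_one h6
  · intro hs
    obtain ⟨A, hA, hf, -⟩ := Pool.Agent.W2helper53.TN.grd K _ M hM hs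
    have hA6 : A.card ≤ 6 := (Finset.card_le_univ A).trans_eq (Fintype.card_fin 6)
    rw [hf]
    simp only [Set.mem_insert_iff, Set.mem_singleton_iff]
    generalize A.card = m at *
    interval_cases m <;> decide

/-- The Lie algebra of the alternating `6 × 6` matrices over `K`, with the bracket `A B - B A`. -/
def A6 (K : Type*) [Field K] [CharP K 2] : Type _ := Alt K

instance lieRingA6 (K : Type*) [Field K] [CharP K 2] : LieRing (A6 K) :=
  inferInstanceAs (LieRing (Alt K))

instance lieAlgebraA6 (K : Type*) [Field K] [CharP K 2] : LieAlgebra K (A6 K) :=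
  inferInstanceAs (LieAlgebra K (Alt K))

/-- **Q2 is false.** Over every algebraically closed field of characteristic two the Lie algebra
`A6 K` of the alternating `6 × 6` matrices is simple of dimension `15` and has a thin decomposition
such that no graded subalgebra is isomorphic to `W` or `H`, and all simple graded subalgebras have
dimension `3`, `6`, `10` or `15`. -/
theorem result (K : Type*) [Field K] [IsAlgClosed K] [CharP K 2] [Algebra (ZMod 2) K] :
    LieAlgebra.IsSimple K (A6 K) ∧ Module.finrank K (A6 K) = 15 ∧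
    ∃ D : ThinDecomposition K (A6 K) 4, ∀ M : LieSubalgebra K (A6 K), IsGraded D M →
      ¬ IsWorH K M ∧
      (LieAlgebra.IsSimple K M → Module.finrank K M ∈ ({3, 6, 10, 15} : Set ℕ)) :=
  main K

end Pool.Agent.Results.MP_9adac4_al.AlternatingMatrices
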